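import Pool.Agent.ETRP.Color

/-!
**Theorem NA** (note 3216, helper67): preparations.  Theorem COLOR, keeping `Y` in the kernel of the
given pair of functionals.
-/

set_option autoImplicit false
set_option linter.unusedSimpArgs false
set_option linter.unusedSectionVars false

namespace Pool.Agent.NA53

open Pool.Agent.Helper58.PLine (QData)
open Pool.Agent.ETCP
open Pool.Agent.ETPF
open Pool.Agent.ETPN
open Pool.Agent.ETPG (mkS)
open Pool.Agent.ETRP

variable {V Q : Type} [AddCommGroup V] [Module (ZMod 2) V] {D : QData V Q}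

/-- the functional `l` may replace one of the two functionals -/
theorem co_of {k l : Module.Dual (ZMod 2) V} {Y : Submodule (ZMod 2) V} (he : D.e = 0)
    (ky : ∀ y ∈ Y, k y = 0)
    (out : ∀ v w, k v = 1 → C D v w → k w = 0 → w ∈ Y)
    (inn : ∀ v w, k v = 0 → v ∉ Y → C D v w → k w = 0)
    (k1 : ∃ v, k v = 1) (ly : ∀ y ∈ Y, l y = 0) (l1 : ∃ v, l v = 1)
    (kl1 : ∃ v, k v + l v = 1) : CO D (k.prod l) := by
  refine ⟨he, ?_, surj3 k1 l1 kl1⟩
  intro v w hv hvw
  simp only [pr_apply] at hv ⊢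
  by_cases h1 : k v = 0
  · have h2 : l v = 1 := by
      refine zm_ne fun h3 => hv ?_
      rw [h1, h3]; rfl
    have h3 : v ∉ Y := fun h4 => by
      rw [ly v h4] at h2; exact absurd h2 (by decide)
    have h4 := inn v w h1 h3 hvw
    rw [h4, h1, h2]
    by_cases h5 : l w = 0
    · left; rw [h5]; rfl
    · right; rw [zm_ne h5]
  · have h1' := zm_ne h1
    by_cases h2 : k w = 0
    · have h3 := out v w h1' hvw h2
      left
      rw [h2, ly w h3]; rfl
    · right
      have h3 : C D v (w + v) := hvw.add (C.self he v)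
      have h4 := out v (w + v) h1' h3 (by rw [map_add, zm_ne h2, h1']; decide)
      have h5 := ky _ h4
      have h6 := ly _ h4
      rw [map_add] at h5 h6
      have e1 : ∀ a b : ZMod 2, a + b = 0 → a = b := by decide
      rw [e1 _ _ h5, e1 _ _ h6]

/-- **Theorem COLOR** with `Y ≤ ker κ0` -/
theorem color_le [Finite V] {κ0 : V →ₗ[ZMod 2] K} (X0 : CO D κ0) :
    ∃ (k : Module.Dual (ZMod 2) V) (Y : Submodule (ZMod 2) V), GY D k Y ∧ ∀ y ∈ Y, κ0 y = 0 := by
  classical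
  have ex : ∃ n : ℕ, ∃ (κ : V →ₗ[ZMod 2] K) (X : CO D κ), X.Y ≤ X0.Y ∧ Nat.card X.Y = n :=
    ⟨_, κ0, X0, le_rfl, rfl⟩
  obtain ⟨κ, X, hle0, hn⟩ := Nat.find_spec ex
  have hmin : ∀ (κ' : V →ₗ[ZMod 2] K) (X' : CO D κ'), X'.Y ≤ X0.Y →
      Nat.card X.Y ≤ Nat.card X'.Y := by
    intro κ' X' h
    rw [hn]
    exact Nat.find_min' ex ⟨κ', X', h, rfl⟩
  obtain ⟨k, k1, ky, out, inn, cod, kh⟩ := X.split
  refine ⟨k, X.Y, ⟨X.he, k1, ky, out, inn, cod, ?_⟩, fun y hy => (hle0 hy).1⟩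
  -- the minimality
  have key : ∀ l : Module.Dual (ZMod 2) V, (∀ y ∈ X.Y, l y = 0) → (∃ v, l v = 1) →
      (∃ v, k v + l v = 1) → ∀ h ∈ X.Y, ∃ w, C D h w ∧ l w = 1 := by
    intro l ly l1 kl1 h hh
    have X' : CO D (k.prod l) := co_of X.he ky out inn k1 ly l1 kl1
    -- `Y' ≤ Y`
    have hle : X'.Y ≤ X.Y := by
      intro u hu
      by_contra hcon
      obtain ⟨h1, h2⟩ := hu
      rw [pr_apply] at h1
      obtain ⟨w, h3, h4⟩ := h2 (1, 0)
      rw [pr_apply] at h4
      have h5 : k u = 0 := congrArg Prod.fst h1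
      have h6 : k w = 1 := congrArg Prod.fst h4
      rw [inn u w h5 hcon h3] at h6
      exact absurd h6 (by decide)
    have heq : X'.Y = X.Y := by
      refine SetLike.coe_injective (Set.eq_of_subset_of_ncard_le hle ?_ (Set.toFinite _))
      exact hmin _ X' (hle.trans hle0)
    rw [← heq] at hh
    obtain ⟨w, h3, h4⟩ := hh.2 (0, 1)
    exact ⟨w, h3, congrArg Prod.snd h4⟩
  intro h hh w
  -- `V_h + Y = V`
  by_contra hcon
  have h1 : w ∉ D.ann h ⊔ X.Y := by
    intro h2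
    obtain ⟨a, ha, y, hy, e⟩ := Submodule.mem_sup.1 h2
    refine hcon ⟨y, hy, ?_⟩
    have : C D h a := ha
    refine this.of_eq rfl ?_
    rw [← e, add_assoc, ZModModule.add_self, add_zero]
  obtain ⟨l, l1, l2⟩ := Pool.Agent.Helper58.PLine.exists_functional h1
  have l3 : ∀ y ∈ X.Y, l y = 0 := fun y hy => l2 y (Submodule.mem_sup_right hy)
  have l4 : ∀ v, C D h v → l v = 0 := fun v hv => l2 v (Submodule.mem_sup_left hv)
  obtain ⟨v, hv, kv⟩ := kh h hh
  obtain ⟨x, hx, lx⟩ := key l l3 ⟨w, l1⟩ ⟨v, by rw [kv, l4 v hv, add_zero]⟩ h hh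
  rw [l4 x hx] at lx
  exact absurd lx (by decide)

end Pool.Agent.NA53
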