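import Pool.Agent.NA53.Full

/-!
**Theorem NA** (note 3216, helper67): the identity and the lemma on two colours.
-/

set_option autoImplicit false
set_option linter.unusedSimpArgs false
set_option linter.unusedSectionVars false

namespace Pool.Agent.NA53

open Pool.Agent.Helper58.PLine (QData)
open Pool.Agent.ETCP
open Pool.Agent.ETPF
open Pool.Agent.ETPN
open Pool.Agent.ETRP
open ETC (ind ind_true ind_false ind_and ind_congr ind_nonneg ind_le sg sg_zero sg_one sg_add)

variable {V Q : Type} [AddCommGroup V] [Module (ZMod 2) V] {D : QData V Q}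

theorem aa (a : V) : a + a = 0 := ZModModule.add_self a

theorem zz (a : ZMod 2) (h : a ≠ 0) : a = 1 := by revert a; decide

theorem z2 (a : ZMod 2) : a = 0 ∨ a = 1 := by revert a; decide

theorem z11 : (1 : ZMod 2) + 1 = 0 := by decide

variable {k : Module.Dual (ZMod 2) V} {Y : Submodule (ZMod 2) V}

theorem mem_add {a b : V} (h : a + b ∈ Y) (ha : a ∈ Y) : b ∈ Y := by
  have := Y.add_mem ha h
  rwa [← add_assoc, aa, zero_add] at this

theorem mem_add' {a b : V} (h : a + b ∈ Y) (hb : b ∈ Y) : a ∈ Y := by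
  rw [add_comm] at h
  exact mem_add h hb

section gy

variable (X : GY D k Y)
include X

theorem out' {v w : V} (hv : k v = 1) (h : C D v w) : w ∈ Y ∨ w + v ∈ Y := by
  by_cases h1 : k w = 0
  · exact Or.inl (X.out v w hv h h1)
  · right
    exact X.out v (w + v) hv (h.add (C.self X.he v)) (by rw [map_add, hv, zz _ h1]; decide)

/-- (0a) -/
theorem mem_a {x w a h : V} (hx : x ∉ Y) (ha : a ∈ Y) (e : D.q x w = D.q a h) :
    ∃ y ∈ Y, D.q x y = D.q x w := by
  have hka := X.ky a ha
  obtain ⟨r, h1, h2⟩ := D.link x w a h e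
  have h3 : C D (x + a) r := q_eq'_iff.1 (h1.symm.trans (e.trans h2))
  rcases z2 (k x) with hkx | hkx
  · -- `x ∈ H \ Y`
    have hxa : x + a ∉ Y := fun h' => hx (mem_add' h' ha)
    have hkr : k r = 0 := X.inn (x + a) r (by rw [map_add, hkx, hka, add_zero]) hxa h3
    obtain ⟨v, hv⟩ := X.k1
    obtain ⟨y, hy, hvy⟩ := X.full a ha v
    have hkt : k (v + y) = 1 := by rw [map_add, hv, X.ky y hy, add_zero]
    have e1 : D.q x r = D.q (r + (v + y)) a := by
      rw [← h1, e, h2, D.symm (r + (v + y)) a]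
      apply q_eq
      exact hvy.of_eq rfl (by rw [← add_assoc, aa, zero_add])
    obtain ⟨s, h4, h5⟩ := D.link x r (r + (v + y)) a e1
    have c1 : C D x (r + s) := q_eq_iff.1 h4
    have c2 : C D (r + (v + y)) (a + s) := q_eq_iff.1 h5
    have hk : k (r + (v + y)) = 1 := by rw [map_add, hkr, hkt, zero_add]
    rcases out' X hk c2 with h6 | h6
    · exact ⟨s, mem_add h6 ha, by rw [h1, h4]⟩
    · exfalso
      have h7 := X.inn x (r + s) hkx hx c1
      have h8 := X.ky _ h6
      rw [map_add, map_add, hka, zero_add, map_add, hkt] at h8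
      rw [map_add] at h7
      have key : ∀ a b : ZMod 2, a + b = 0 → b + (a + 1) = 0 → False := by decide
      exact key _ _ h7 h8
  · have hk : k (x + a) = 1 := by rw [map_add, hkx, hka, add_zero]
    rcases out' X hk h3 with h4 | h4
    · exact ⟨r, h4, h1.symm⟩
    · refine ⟨r + x, ?_, ?_⟩
      · apply mem_add' (b := a) _ ha
        rwa [← add_assoc] at h4
      · rw [h1]
        apply q_eq
        exact (C.self X.he x).of_eq rfl (by
          rw [add_comm r x, add_assoc, aa, add_zero])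

/-- (0b) -/
theorem mem_b {x v y : V} (hx : x ∉ Y) (hv : C D x v) (hy : y ∈ Y) :
    ∃ y' ∈ Y, C D (x + y) (v + y') := by
  have hxy : x + y ∉ Y := fun h => hx (mem_add' h hy)
  have e : D.q (x + y) v = D.q y v := by
    apply q_eq'
    exact hv.of_eq (by rw [add_assoc, aa, add_zero]) rfl
  obtain ⟨y', hy', e'⟩ := mem_a X hxy hy e
  exact ⟨y', hy', q_eq_iff.1 e'.symm⟩

theorem partner {x z z' : V} (_ : x ∉ Y) (h : C D x z) (hz : z' + z ∈ Y) :
    ∃ u, u + x ∈ Y ∧ C D u z' := by
  by_cases hzY : z ∈ Y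
  · obtain ⟨y, hy, h1⟩ := X.full z' (mem_add' hz hzY) x
    exact ⟨x + y, by rw [add_comm x y, add_assoc, aa, add_zero]; exact hy, h1.symm⟩
  · obtain ⟨y', hy', h1⟩ := mem_b X hzY h.symm hz
    refine ⟨x + y', by rw [add_comm x y', add_assoc, aa, add_zero]; exact hy', ?_⟩
    exact h1.symm.of_eq rfl (by rw [add_comm z' z, ← add_assoc, aa, zero_add])

end gy

section sums

variable [Fintype V]

variable (D Y) in
/-- the sum over the solutions of `v z' = e` in `z + Y` -/
noncomputable def I (l : Module.Dual (ZMod 2) V) (e : Q) (v z : V) : ℤ :=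
  ∑ z', ind (z' + z ∈ Y ∧ D.q v z' = e) * sg (l z')

variable (D Y) in
/-- `|Y_v|` -/
noncomputable def yc (v : V) : ℤ := ∑ y, ind (y ∈ Y ∧ C D v y)

variable (D Y) in
/-- `v` is null -/
def Nul (l : Module.Dual (ZMod 2) V) (v : V) : Prop := ∀ y ∈ Y, C D v y → l y = 0

variable {l : Module.Dual (ZMod 2) V} {e : Q}

theorem yc_pos (v : V) : 0 < yc D Y v :=
  Pool.Agent.ETPG.sum_ind_pos (v := (0 : V)) ⟨Y.zero_mem, C.zero v⟩

theorem I_congr {v z z1 : V} (h : z + z1 ∈ Y) : I D Y l e v z = I D Y l e v z1 := by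
  unfold I
  refine Finset.sum_congr rfl fun z' _ => ?_
  congr 1
  apply ind_congr
  have h1 : z' + z ∈ Y ↔ z' + z1 ∈ Y := by
    constructor
    · intro h2
      have := Y.add_mem h2 h
      have e1 : z' + z + (z + z1) = z' + z1 + (z + z) := by abel
      rwa [e1, aa, add_zero] at this
    · intro h2
      have := Y.add_mem h2 h
      have e1 : z' + z1 + (z + z1) = z' + z + (z1 + z1) := by abel
      rwa [e1, aa, add_zero] at this
  rw [h1]

theorem I_not {v z : V} (h : ¬ Nul D Y l v) : I D Y l e v z = 0 := by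
  unfold Nul at h
  push Not at h
  obtain ⟨y, hy, hvy, hly⟩ := h
  have hly1 := zz _ hly
  have h1 : I D Y l e v z = - I D Y l e v z := by
    unfold I
    conv_lhs => rw [← Equiv.sum_comp (Equiv.addRight y)]
    rw [← Finset.sum_neg_distrib]
    refine Finset.sum_congr rfl fun z' _ => ?_
    rw [Equiv.coe_addRight, map_add, hly1, sg_add, sg_one]
    have h2 : (z' + y + z ∈ Y ∧ D.q v (z' + y) = e) ↔ (z' + z ∈ Y ∧ D.q v z' = e) := by
      have e1 : D.q v (z' + y) = D.q v z' := by
        apply q_eq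
        exact hvy.of_eq rfl (by rw [add_comm z' y, add_assoc, aa, add_zero])
      rw [e1]
      have h3 : z' + y + z ∈ Y ↔ z' + z ∈ Y := by
        have e2 : z' + y + z = y + (z' + z) := by abel
        rw [e2]
        exact ⟨fun h => mem_add h hy, fun h => Y.add_mem hy h⟩
      rw [h3]
    rw [ind_congr h2]
    ring
  linarith

theorem I_none {v z : V} (h : ∀ z0, z0 + z ∈ Y → D.q v z0 ≠ e) : I D Y l e v z = 0 := by
  unfold I
  refine Finset.sum_eq_zero fun z' _ => ?_
  rw [ind_false (fun h1 => h z' h1.1 h1.2), zero_mul]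

theorem I_eq {v z z0 : V} (hn : Nul D Y l v) (h1 : z0 + z ∈ Y) (h2 : D.q v z0 = e) :
    I D Y l e v z = sg (l z0) * yc D Y v := by
  unfold I yc
  rw [← Equiv.sum_comp (Equiv.addRight z0), Finset.mul_sum]
  refine Finset.sum_congr rfl fun y _ => ?_
  rw [Equiv.coe_addRight]
  have h3 : (y + z0 + z ∈ Y ∧ D.q v (y + z0) = e) ↔ (y ∈ Y ∧ C D v y) := by
    have h4 : y + z0 + z ∈ Y ↔ y ∈ Y := by
      rw [add_assoc]
      exact ⟨fun h => mem_add' h h1, fun h => Y.add_mem h h1⟩
    have h5 : D.q v (y + z0) = e ↔ C D v y := by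
      rw [← h2, q_eq_iff, add_assoc, aa, add_zero]
    rw [h4, h5]
  rw [ind_congr h3]
  by_cases h6 : y ∈ Y ∧ C D v y
  · rw [map_add, hn y h6.1 h6.2, zero_add, mul_comm]
  · rw [ind_false h6, zero_mul, mul_zero]

/-- the identity -/
theorem ident (X : GY D k Y) {x z : V} (hx : x ∉ Y) (h : C D x z) :
    ∑ x', ind (x' + x ∈ Y) * I D Y l e x' z = ∑ a, ind (a ∈ Y) * I D Y l e a z := by
  unfold I
  simp only [Finset.mul_sum]
  rw [Finset.sum_comm]
  rw [Finset.sum_comm (f := fun a z' => ind (a ∈ Y) * (ind (z' + z ∈ Y ∧ D.q a z' = e) *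
    sg (l z')))]
  refine Finset.sum_congr rfl fun z' _ => ?_
  by_cases hz : z' + z ∈ Y
  · obtain ⟨u, hu, huz⟩ := partner X hx h hz
    rw [← Equiv.sum_comp (Equiv.addRight u)]
    refine Finset.sum_congr rfl fun a _ => ?_
    rw [Equiv.coe_addRight]
    have h1 : a + u + x ∈ Y ↔ a ∈ Y := by
      rw [add_assoc]
      exact ⟨fun h => mem_add' h hu, fun h => Y.add_mem h hu⟩
    have h2 : D.q (a + u) z' = D.q a z' := by
      apply q_eq'
      exact huz.of_eq (by rw [add_comm a u, add_assoc, aa, add_zero]) rfl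
    rw [ind_congr h1, h2]
  · refine Finset.sum_congr rfl fun a _ => ?_
    rw [ind_false (fun h1 : z' + z ∈ Y ∧ D.q a z' = e => hz h1.1)]
    ring

end sums

end Pool.Agent.NA53
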