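import Pool.Agent.NA53.Two

/-!
**Theorem NA** (note 3216, helper67): Lemma S; Theorem NA.
-/

set_option autoImplicit false
set_option linter.unusedSimpArgs false
set_option linter.unusedSectionVars false

namespace Pool.Agent.NA53

open Pool.Agent.Helper58.PLine (QData)
open Pool.Agent.ETCP
open Pool.Agent.ETPF
open Pool.Agent.ETPN
open Pool.Agent.ETRP
open ETC (ind ind_true ind_false ind_and ind_congr ind_nonneg ind_le sg sg_zero sg_one sg_add)

variable {V Q : Type} [AddCommGroup V] [Module (ZMod 2) V] {D : QData V Q}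
variable {k : Module.Dual (ZMod 2) V} {Y : Submodule (ZMod 2) V}
variable {l : Module.Dual (ZMod 2) V}

theorem I0_eq [Fintype V] {v : V} (hn : Nul D Y l v) : I D Y l D.z v 0 = yc D Y v := by
  rw [I_eq (z0 := 0) hn (by rw [add_zero]; exact Y.zero_mem) (C.zero v), map_zero, sg_zero,
    one_mul]

theorem I_abs [Fintype V] {v z : V} (s : ZMod 2) :
    0 ≤ I D Y l D.z v 0 + sg s * I D Y l D.z v z := by
  by_cases hn : Nul D Y l v
  · rw [I0_eq hn]
    by_cases h : ∃ z0, z0 + z ∈ Y ∧ D.q v z0 = D.z
    · obtain ⟨z0, h1, h2⟩ := h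
      rw [I_eq hn h1 h2, ← mul_assoc, ← sg_add]
      have hp := (yc_pos (D := D) (Y := Y) v).le
      rcases z2 (s + l z0) with h3 | h3
      · rw [h3, sg_zero, one_mul]; linarith
      · rw [h3, sg_one]; linarith
    · push Not at h
      rw [I_none h, mul_zero, add_zero]
      exact (yc_pos v).le
  · rw [I_not hn, I_not hn, mul_zero, add_zero]

/-- a null element of `w + Y` with a given value of `l` -/
theorem pick [Finite V] (X : GY D k Y) {w a w1 : V} (hw : w ∉ Y) (ha : a ∈ Y)
    (hn : Nul D Y l a) (h1 : w1 + w ∈ Y) (h2 : C D a w1) :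
    ∃ b, b + w ∈ Y ∧ Nul D Y l b ∧ l b = l w1 := by
  classical
  have := Fintype.ofFinite V
  have id0 := ident (l := l) (e := D.z) X hw (C.zero w)
  have id1 := ident (l := l) (e := D.z) X hw (C.self X.he w)
  have hsum : ∑ x', ind (x' + w ∈ Y) * (I D Y l D.z x' 0 + sg (l w1) * I D Y l D.z x' w) =
      ∑ a, ind (a ∈ Y) * (I D Y l D.z a 0 + sg (l w1) * I D Y l D.z a w) := by
    have e1 : ∀ (P : V → Prop), ∑ x', ind (P x') *
        (I D Y l D.z x' 0 + sg (l w1) * I D Y l D.z x' w) =
        ∑ x', ind (P x') * I D Y l D.z x' 0 +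
          sg (l w1) * ∑ x', ind (P x') * I D Y l D.z x' w := by
      intro P
      rw [Finset.mul_sum, ← Finset.sum_add_distrib]
      refine Finset.sum_congr rfl fun x' _ => ?_
      ring
    rw [e1, e1, id0, id1]
  have hpos : 0 < ∑ a, ind (a ∈ Y) * (I D Y l D.z a 0 + sg (l w1) * I D Y l D.z a w) := by
    refine Finset.sum_pos' (fun x _ => mul_nonneg (ind_nonneg _) (I_abs _))
      ⟨a, Finset.mem_univ _, ?_⟩
    rw [ind_true ha, one_mul, I0_eq hn, I_eq hn h1 h2, ← mul_assoc, ← sg_add, z2s, sg_zero,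
      one_mul]
    have := yc_pos (D := D) (Y := Y) a
    linarith
  rw [← hsum] at hpos
  obtain ⟨b, -, hb⟩ := Finset.exists_lt_of_sum_lt (s := Finset.univ)
    (f := fun _ : V => (0 : ℤ)) (by simpa using hpos)
  by_cases hbw : b + w ∈ Y
  · rw [ind_true hbw, one_mul] at hb
    by_cases nb : Nul D Y l b
    · refine ⟨b, hbw, nb, ?_⟩
      rw [I0_eq nb, I_eq nb hbw (C.self X.he b), ← mul_assoc, ← sg_add] at hb
      rcases z2 (l w1 + l b) with h3 | h3
      · have key : ∀ a b : ZMod 2, a + b = 0 → b = a := by decide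
        exact key _ _ h3
      · rw [h3, sg_one] at hb
        exfalso
        linarith
    · rw [I_not nb, I_not nb, mul_zero, add_zero] at hb
      exact absurd hb (lt_irrefl _)
  · rw [ind_false hbw, zero_mul] at hb
    exact absurd hb (lt_irrefl _)
where
  z2s {a : ZMod 2} : a + a = 0 := by revert a; decide

/-- Lemma S -/
theorem lemS [Finite V] (X : GY D k Y)
    (hl : ∀ f : Module.Dual (ZMod 2) V, (∀ x, (∀ v, C D x v → l v = 0) → f x = 0) →
      f = 0 ∨ f = l) (hlY : ∃ y ∈ Y, l y ≠ 0) : ∃ a ∈ Y, ∀ v, C D a v → l v = 0 := by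
  classical
  have := Fintype.ofFinite V
  by_contra hcon
  push Not at hcon
  have hHY : ∃ h, k h = 0 ∧ h ∉ Y := by
    obtain ⟨l', hl', ⟨v1, hv1⟩, v2, hv2⟩ := X.codim
    rcases z2 (k v1) with h1 | h1
    · exact ⟨v1, h1, fun h => by rw [hl' _ h] at hv1; exact absurd hv1 (by decide)⟩
    · rcases z2 (k v2) with h2 | h2
      · refine ⟨v2, h2, fun h => ?_⟩
        rw [h2, hl' _ h] at hv2
        exact absurd hv2 (by decide)
      · refine ⟨v1 + v2, by rw [map_add, h1, h2]; decide, fun h => ?_⟩
        have h3 := hl' _ h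
        rw [map_add, hv1] at h3
        rw [h2] at hv2
        have key : ∀ a : ZMod 2, 1 + a = 0 → 1 + a = 1 → False := by decide
        exact key _ h3 hv2
  obtain ⟨y0, hy0, hly0⟩ := hlY
  -- `P_l` is not empty
  obtain ⟨x, hx⟩ : ∃ x, ∀ v, C D x v → l v = 0 := by
    by_contra hne
    push Not at hne
    rcases hl k (fun x hx => by
      obtain ⟨v, h1, h2⟩ := hne x
      exact absurd (hx v h1) h2) with h | h
    · obtain ⟨v, hv⟩ := X.k1
      rw [h] at hv
      exact absurd hv (by simp)
    · apply hly0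
      rw [← h]
      exact X.ky y0 hy0
  have hnul : ∀ x, (∀ v, C D x v → l v = 0) → x ∉ Y ∧ Nul D Y l x := by
    intro x hx
    refine ⟨fun h => ?_, fun y _ h => hx y h⟩
    obtain ⟨v, h1, h2⟩ := hcon x h
    exact h2 (hx v h1)
  -- a null element of `Y`
  obtain ⟨a0, ha0, na0⟩ : ∃ a ∈ Y, Nul D Y l a := by
    by_contra hne
    push Not at hne
    obtain ⟨hxY, nx⟩ := hnul x hx
    have id0 := ident (l := l) (e := D.z) X hxY (C.zero x)
    have h1 : ∑ a, ind (a ∈ Y) * I D Y l D.z a 0 = 0 := by
      refine Finset.sum_eq_zero fun a _ => ?_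
      by_cases ha : a ∈ Y
      · rw [I_not (hne a ha), mul_zero]
      · rw [ind_false ha, zero_mul]
    rw [h1] at id0
    have h2 : 0 < ∑ x', ind (x' + x ∈ Y) * I D Y l D.z x' 0 := by
      refine Finset.sum_pos' (fun x' _ => mul_nonneg (ind_nonneg _) ?_)
        ⟨x, Finset.mem_univ _, ?_⟩
      · by_cases nx' : Nul D Y l x'
        · rw [I0_eq nx']; exact (yc_pos _).le
        · rw [I_not nx']
      · rw [ind_true (by rw [aa]; exact Y.zero_mem), one_mul, I0_eq nx]
        exact yc_pos x
    rw [id0] at h2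
    exact lt_irrefl _ h2
  -- only one colour
  have hone : ∀ a ∈ Y, ∀ a' ∈ Y, Nul D Y l a → Nul D Y l a' → ∀ w w', C D a w → C D a' w' →
      w + w' ∈ Y → l w = l w' := by
    -- odd classes
    have odd : ∀ a ∈ Y, ∀ a' ∈ Y, Nul D Y l a → Nul D Y l a' → ∀ w w', C D a w → C D a' w' →
        w + w' ∈ Y → k w = 1 → l w = l w' := by
      intro a ha a' ha' na na' w w' hw hw' hww kw
      by_contra hne
      have hwY : w ∉ Y := fun h => by rw [X.ky w h] at kw; exact absurd kw (by decide)
      obtain ⟨b, hb1, hb2, hb3⟩ := pick X hwY ha na (by rw [aa]; exact Y.zero_mem) hw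
      obtain ⟨b', hb1', hb2', hb3'⟩ := pick X hwY ha' na' (by rw [add_comm]; exact hww) hw'
      have hkb : k b = 1 := by
        have := X.ky _ hb1
        rw [map_add, kw] at this
        have key : ∀ a : ZMod 2, a + 1 = 0 → a = 1 := by decide
        exact key _ this
      have hbb : b + b' ∈ Y := by
        have := Y.add_mem hb1 hb1'
        have e1 : b + w + (b' + w) = b + b' + (w + w) := by abel
        rwa [e1, aa, add_zero] at this
      have hlb : l (b + b') = 1 := by
        rw [map_add, hb3, hb3']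
        have key : ∀ a b : ZMod 2, a ≠ b → a + b = 1 := by decide
        exact key _ _ hne
      obtain ⟨a1, ha1, h1⟩ := two X hkb hbb hb2 hb2' hlb hHY
      obtain ⟨v, h2, h3⟩ := hcon a1 ha1
      exact h3 (h1 v h2)
    intro a ha a' ha' na na' w w' hw hw' hww
    rcases z2 (k w) with kw | kw
    · obtain ⟨v, hv⟩ := X.k1
      obtain ⟨y, hy, h1⟩ := X.full a ha v
      obtain ⟨y', hy', h1'⟩ := X.full a' ha' v
      have e1 := odd a ha a' ha' na na' (v + y) (v + y') h1 h1' (by
        have e2 : v + y + (v + y') = v + v + (y + y') := by abel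
        rw [e2, aa, zero_add]
        exact Y.add_mem hy hy') (by rw [map_add, hv, X.ky y hy, add_zero])
      have e3 := odd a ha a' ha' na na' (w + (v + y)) (w' + (v + y')) (hw.add h1)
        (hw'.add h1') (by
        have e2 : w + (v + y) + (w' + (v + y')) = v + v + (w + w' + (y + y')) := by abel
        rw [e2, aa, zero_add]
        exact Y.add_mem hww (Y.add_mem hy hy')) (by
          rw [map_add, map_add, kw, hv, X.ky y hy, add_zero, zero_add])
      rw [map_add l w, map_add l w', e1] at e3
      exact add_right_cancel e3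
    · exact odd a ha a' ha' na na' w w' hw hw' hww kw
  -- the colour kills `P_l`
  have hkill : ∀ x, (∀ v, C D x v → l v = 0) → ∀ z1, C D a0 z1 → z1 + x ∈ Y → l z1 = 0 := by
    intro x hx z1 hz1 hzx
    obtain ⟨hxY, nx⟩ := hnul x hx
    by_contra hne
    have hz1l := zz _ hne
    have id0 := ident (l := l) (e := D.z) X hxY (C.zero x)
    have id1 := ident (l := l) (e := D.z) X hxY (C.self X.he x)
    have h1 : ∑ a, ind (a ∈ Y) * I D Y l D.z a x = - ∑ a, ind (a ∈ Y) * I D Y l D.z a 0 := by
      rw [← Finset.sum_neg_distrib]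
      refine Finset.sum_congr rfl fun a _ => ?_
      by_cases ha : a ∈ Y
      · by_cases na : Nul D Y l a
        · obtain ⟨y, hy, h2⟩ := X.full a ha x
          have h3 : x + y + x ∈ Y := by
            have e1 : x + y + x = y + (x + x) := by abel
            rw [e1, aa, add_zero]; exact hy
          have h4 : l (x + y) = 1 := by
            rw [← hz1l]
            refine (hone a0 ha0 a ha na0 na z1 (x + y) hz1 h2 ?_).symm
            rw [← add_assoc]
            exact Y.add_mem hzx hy
          rw [I0_eq na, I_eq na h3 h2, h4, sg_one]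
          ring
        · rw [I_not na, I_not na]
          ring
      · rw [ind_false ha]; ring
    rw [← id1, ← id0] at h1
    have h2 : ∑ x', ind (x' + x ∈ Y) * (I D Y l D.z x' 0 + sg 0 * I D Y l D.z x' x) = 0 := by
      have e1 : ∀ x', ind (x' + x ∈ Y) * (I D Y l D.z x' 0 + sg 0 * I D Y l D.z x' x) =
          ind (x' + x ∈ Y) * I D Y l D.z x' 0 + ind (x' + x ∈ Y) * I D Y l D.z x' x := by
        intro x'
        rw [sg_zero]; ring
      simp only [e1]
      rw [Finset.sum_add_distrib, h1]
      ring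
    have h3 : 0 < ∑ x', ind (x' + x ∈ Y) *
        (I D Y l D.z x' 0 + sg 0 * I D Y l D.z x' x) := by
      refine Finset.sum_pos' (fun x' _ => mul_nonneg (ind_nonneg _) (I_abs _))
        ⟨x, Finset.mem_univ _, ?_⟩
      have h0 : x + x ∈ Y := by rw [aa]; exact Y.zero_mem
      rw [ind_true h0, one_mul, I0_eq nx, I_eq nx h0 (C.self X.he x),
        hx x (C.self X.he x), sg_zero]
      have := yc_pos (D := D) (Y := Y) x
      linarith
    rw [h2] at h3
    exact lt_irrefl _ h3
  -- the functional
  obtain ⟨v, hv, hlv⟩ := hcon a0 ha0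
  let M : Submodule (ZMod 2) V := (D.ann a0 ⊓ LinearMap.ker l) ⊔ Y
  have hvM : v ∉ M := by
    intro h
    obtain ⟨v1, ⟨hv1, hv1l⟩, y, hy, e1⟩ := Submodule.mem_sup.1 h
    have hv1' : C D a0 v1 := hv1
    have h1 : C D a0 y := (hv.add hv1').of_eq rfl (by
      rw [← e1]
      have e2 : v1 + y + v1 = y + (v1 + v1) := by abel
      rw [e2, aa, add_zero])
    have h2 := na0 y hy h1
    apply hlv
    rw [← e1, map_add, h2, add_zero]
    exact hv1l
  obtain ⟨f, hf1, hf2⟩ := Pool.Agent.Helper58.PLine.exists_functional hvM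
  rcases hl f (fun x hx => hf2 x (by
      obtain ⟨y, hy, h1⟩ := X.full a0 ha0 x
      have h2 : x + y + x ∈ Y := by
        have e1 : x + y + x = y + (x + x) := by abel
        rw [e1, aa, add_zero]; exact hy
      have h3 := hkill x hx (x + y) h1 h2
      have e1 : x = (x + y) + y := by rw [add_assoc, aa, add_zero]
      rw [e1]
      exact Submodule.add_mem_sup ⟨h1, h3⟩ hy)) with h | h
  · rw [h] at hf1
    exact absurd hf1 (by simp)
  · apply hly0
    rw [← h]
    exact hf2 y0 (Submodule.mem_sup_right hy0)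

theorem co_swap {f g : Module.Dual (ZMod 2) V} (X : CO D (f.prod g)) : CO D (g.prod f) := by
  refine ⟨X.he, ?_, ?_⟩
  · intro v w hv hvw
    simp only [pr_apply] at hv ⊢
    have h := X.hC v w (by
      intro h
      rw [pr_apply] at h
      have h1 : f v = 0 := congrArg Prod.fst h
      have h2 : g v = 0 := congrArg Prod.snd h
      apply hv
      rw [h1, h2]
      rfl) hvw
    simp only [pr_apply] at h
    rcases h with h | h
    · left
      have h1 : f w = 0 := congrArg Prod.fst h
      have h2 : g w = 0 := congrArg Prod.snd h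
      rw [h1, h2]
      rfl
    · right
      have h1 : f w = f v := congrArg Prod.fst h
      have h2 : g w = g v := congrArg Prod.snd h
      rw [h1, h2]
  · intro a
    obtain ⟨v, hv⟩ := X.su (a.2, a.1)
    refine ⟨v, ?_⟩
    rw [pr_apply] at hv ⊢
    have h1 : f v = a.2 := congrArg Prod.fst hv
    have h2 : g v = a.1 := congrArg Prod.snd hv
    rw [h1, h2]

/-- **Theorem NA** (note 3216): no arrow leads from a sharp functional `l` which is not SR to a
functional `g` which is SR.  `CO D (g.prod θ)` says that the form `g ∧ θ` of rank two vanishes on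
commuting pairs. -/
theorem no_arrow [Finite V] {l g θ : Module.Dual (ZMod 2) V}
    (hl : ∀ f : Module.Dual (ZMod 2) V, (∀ x, (∀ v, C D x v → l v = 0) → f x = 0) →
      f = 0 ∨ f = l)
    (hnsr : ∀ θ', ¬ CO D (l.prod θ')) (X0 : CO D (g.prod θ)) (hgl : g ≠ l)
    (harr : ∀ x, (∀ v, C D x v → l v = 0) → g x = 0 → ∀ v, C D x v → g v = 0) : False := by
  obtain ⟨k, Y, X, hY⟩ := color_le X0
  have hgY : ∀ y ∈ Y, g y = 0 := fun y hy => congrArg Prod.fst (hY y hy)
  obtain ⟨v, hv⟩ := X0.su (1, 0)
  have hgv : g v = 1 := congrArg Prod.fst hv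
  by_cases hlY : ∃ y ∈ Y, l y ≠ 0
  · obtain ⟨a, ha, h1⟩ := lemS X hl hlY
    obtain ⟨y, hy, h2⟩ := X.full a ha v
    have h3 := harr a h1 (hgY a ha) _ h2
    rw [map_add, hgv, hgY y hy] at h3
    exact absurd h3 (by decide)
  · push Not at hlY
    -- `l ≠ 0`
    by_cases hl0 : l = 0
    · have := harr 0 (fun v _ => by rw [hl0]; rfl) (map_zero g) v (C.zero' v)
      rw [hgv] at this
      exact absurd this (by decide)
    have hex : ∀ f : Module.Dual (ZMod 2) V, f ≠ 0 → ∃ v, f v = 1 := by
      intro f hf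
      by_contra hcon
      push Not at hcon
      apply hf
      ext v
      rcases z2 (f v) with h | h
      · rw [h]; rfl
      · exact absurd h (hcon v)
    have hadd : ∀ f h : Module.Dual (ZMod 2) V, f ≠ h → ∃ v, f v + h v = 1 := by
      intro f h hfh
      have h1 : f + h ≠ 0 := fun h0 => hfh (by
        have : f + h + h = h := by rw [h0, zero_add]
        rwa [add_assoc, ZModModule.add_self, add_zero] at this)
      exact hex (f + h) h1
    by_cases hlk : k = l
    · refine hnsr g ?_
      rw [← hlk]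
      exact co_of X.he X.ky X.out X.inn X.k1 hgY ⟨v, hgv⟩
        (hadd k g (fun e => hgl (e.symm.trans hlk)))
    · exact hnsr k (co_swap (co_of X.he X.ky X.out X.inn X.k1 hlY (hex l hl0)
        (hadd k l hlk)))

end Pool.Agent.NA53
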