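import Pool.Agent.NA53.Lem

/-!
**Theorem NA** (note 3216, helper67): two colours; Lemma S; Theorem NA.
-/

set_option autoImplicit false
set_option linter.unusedSimpArgs false
set_option linter.unusedSectionVars false

namespace Pool.Agent.NA53

open Pool.Agent.Helper58.PLine (QData)
open Pool.Agent.ETCP
open Pool.Agent.ETPF
open Pool.Agent.ETPN
open Pool.Agent.ETRP
open ETC (ind ind_true ind_false ind_and ind_congr ind_nonneg ind_le sg sg_zero sg_one sg_add)

variable {V Q : Type} [AddCommGroup V] [Module (ZMod 2) V] {D : QData V Q}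
variable {k : Module.Dual (ZMod 2) V} {Y : Submodule (ZMod 2) V}
variable {l : Module.Dual (ZMod 2) V} {e : Q}

/-- one slot: `x` is null, `x y = e = b k1` -/
theorem slot (X : GY D k Y) {x b yx k1 : V} (hx : x ∉ Y) (hb : k b = 1) (nx : Nul D Y l x)
    (nb : Nul D Y l b) (hyx : yx ∈ Y) (hk1 : k1 ∈ Y) (e1 : D.q x yx = D.q b k1) :
    (l yx = l k1) ∨ (k x = 1 ∧ x + b ∈ Y ∧ l yx = l k1 + l (x + b)) := by
  have hbY : b ∉ Y := fun h => by rw [X.ky b h] at hb; exact absurd hb (by decide)
  obtain ⟨r, h1, h2⟩ := D.link x yx b k1 e1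
  have c1 : C D x (yx + r) := q_eq_iff.1 h1
  have c2 : C D b (k1 + r) := q_eq_iff.1 h2
  have fin1 : r ∈ Y → l yx = l k1 := by
    intro hr
    have h3 := nx _ (Y.add_mem hyx hr) c1
    have h4 := nb _ (Y.add_mem hk1 hr) c2
    rw [map_add] at h3 h4
    have key : ∀ a b c : ZMod 2, a + c = 0 → b + c = 0 → a = b := by decide
    exact key _ _ _ h3 h4
  rcases z2 (k x) with hkx | hkx
  · left
    apply fin1
    have h3 := X.inn x (yx + r) hkx hx c1
    rw [map_add, X.ky _ hyx, zero_add] at h3
    rcases out' X hb c2 with h4 | h4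
    · exact mem_add h4 hk1
    · exfalso
      have h5 := X.ky _ h4
      rw [map_add, map_add, X.ky _ hk1, h3, hb] at h5
      exact absurd h5 (by decide)
  · rcases out' X hkx c1 with h3 | h3
    · exact Or.inl (fin1 (mem_add h3 hyx))
    · rcases out' X hb c2 with h4 | h4
      · exact Or.inl (fin1 (mem_add h4 hk1))
      · right
        have h5 : x + b ∈ Y := by
          have h6 := Y.add_mem (Y.add_mem h3 hyx) (Y.add_mem h4 hk1)
          have e2 : yx + r + x + yx + (k1 + r + b + k1) =
              x + b + (yx + yx) + (k1 + k1) + (r + r) := by abel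
          rwa [e2, aa, aa, aa, add_zero, add_zero, add_zero] at h6
        refine ⟨hkx, h5, ?_⟩
        have c3 : C D x (yx + r + x) := c1.add (C.self X.he x)
        have c4 : C D b (k1 + r + b) := c2.add (C.self X.he b)
        have h6 := nx _ h3 c3
        have h7 := nb _ h4 c4
        rw [map_add, map_add] at h6 h7
        rw [map_add]
        have key : ∀ a r x c b : ZMod 2, a + r + x = 0 → c + r + b = 0 → a = c + (x + b) := by
          decide
        exact key _ _ _ _ _ h6 h7

/-- (2) two null elements of one odd class with different values of `l` -/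
theorem two [Finite V] (X : GY D k Y) {b b' : V} (hb : k b = 1) (hbb : b + b' ∈ Y)
    (nb : Nul D Y l b) (nb' : Nul D Y l b') (hl : l (b + b') = 1)
    (hHY : ∃ h, k h = 0 ∧ h ∉ Y) : ∃ a ∈ Y, ∀ v, C D a v → l v = 0 := by
  classical
  have := Fintype.ofFinite V
  have hkb' : k b' = 1 := by
    have := X.ky _ hbb
    rw [map_add, hb] at this
    have key : ∀ a : ZMod 2, 1 + a = 0 → a = 1 := by decide
    exact key _ this
  have hbY : b ∉ Y := fun h => by rw [X.ky b h] at hb; exact absurd hb (by decide)
  -- the symbol `e`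
  obtain ⟨k1, hk1, hdk⟩ := X.full (b + b') hbb b
  obtain ⟨e, he⟩ : ∃ e, e = D.q b k1 := ⟨_, rfl⟩
  have hbk : D.q b (b + k1) = e := by
    rw [he]
    apply q_eq
    exact (C.self X.he b).of_eq rfl (by rw [add_assoc, aa, add_zero])
  have hb'k : D.q b' (b + k1) = e := by
    rw [← hbk]
    apply q_eq'
    exact hdk.of_eq (by rw [add_comm]) rfl
  obtain ⟨k2, hk2⟩ : ∃ k2, k2 = b + k1 + b' := ⟨_, rfl⟩
  have hk2Y : k2 ∈ Y := by
    rw [hk2]
    have e1 : b + k1 + b' = b + b' + k1 := by abel
    rw [e1]
    exact Y.add_mem hbb hk1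
  have hb'k2 : D.q b' k2 = e := by
    rw [← hb'k]
    apply q_eq
    exact (C.self X.he b').of_eq rfl (by
      rw [hk2]
      have e1 : b + k1 + b' + (b + k1) = b' + (b + b) + (k1 + k1) := by abel
      rw [e1, aa, aa, add_zero, add_zero])
  have hlk : l k2 = l k1 + 1 := by
    rw [hk2]
    have e1 : b + k1 + b' = k1 + (b + b') := by abel
    rw [e1, map_add, hl]
  -- (2')
  have key2 : ∀ x, x ∉ Y → Nul D Y l x → ∀ yx ∈ Y, D.q x yx = e →
      k x = 1 ∧ x + b ∈ Y ∧ l yx = l k1 + l (x + b) := by
    intro x hx nx yx hyx hxe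
    have s1 := slot X hx hb nx nb hyx hk1 (hxe.trans he)
    have s2 := slot X hx hkb' nx nb' hyx hk2Y (hxe.trans hb'k2.symm)
    rcases s1 with s1 | s1
    · rcases s2 with s2 | ⟨h1, h2, h3⟩
      · exfalso
        rw [s1, hlk] at s2
        have key : ∀ a : ZMod 2, a = a + 1 → False := by decide
        exact key _ s2
      · have h4 : x + b ∈ Y := by
          have := Y.add_mem h2 hbb
          have e1 : x + b' + (b + b') = x + b + (b' + b') := by abel
          rwa [e1, aa, add_zero] at this
        refine ⟨h1, h4, ?_⟩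
        rw [h3, hlk]
        have e1 : x + b' = x + b + (b + b') := by
          have e2 : x + b + (b + b') = x + b' + (b + b) := by abel
          rw [e2, aa, add_zero]
        rw [e1, map_add l (x + b), hl]
        have key : ∀ a b : ZMod 2, a + 1 + (b + 1) = a + b := by decide
        exact key _ _
    · exact s1
  have hke : ∀ x, x ∉ Y → ∀ z z0, Nul D Y l x → x + z ∈ Y → z0 + z ∈ Y → D.q x z0 = e →
      k x = 1 ∧ x + b ∈ Y ∧ l z0 = l k1 + l b := by
    intro x hx z z0 nx hxz hz0 hq
    have hyx : z0 + x ∈ Y := by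
      have := Y.add_mem hz0 hxz
      have e1 : z0 + z + (x + z) = z0 + x + (z + z) := by abel
      rwa [e1, aa, add_zero] at this
    have hq' : D.q x (z0 + x) = e := by
      rw [← hq]
      apply q_eq
      exact (C.self X.he x).of_eq rfl (by
        have e1 : z0 + x + z0 = x + (z0 + z0) := by abel
        rw [e1, aa, add_zero])
    obtain ⟨h1, h2, h3⟩ := key2 x hx nx _ hyx hq'
    refine ⟨h1, h2, ?_⟩
    rw [map_add, map_add] at h3
    have key : ∀ a x k b : ZMod 2, a + x = k + (x + b) → a = k + b := by decide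
    exact key _ _ _ _ h3
  by_contra hcon
  push Not at hcon
  let J : V → ℤ := fun z => ∑ a, ind (a ∈ Y) * I D Y l e a z
  let σ : ℤ := sg (l k1 + l b)
  have hσ : σ * σ = 1 := by
    have : ∀ a : ZMod 2, sg a * sg a = 1 := by decide
    exact this _
  -- each `J z` has the sign of `σ`
  have hJ : ∀ z, z ∉ Y → 0 ≤ σ * J z := by
    intro z hz
    change 0 ≤ σ * ∑ a, ind (a ∈ Y) * I D Y l e a z
    rw [← ident X hz (C.self X.he z), Finset.mul_sum]
    refine Finset.sum_nonneg fun x _ => ?_
    by_cases hxz : x + z ∈ Y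
    · rw [ind_true hxz, one_mul]
      have hx : x ∉ Y := fun h => hz (mem_add hxz h)
      by_cases nx : Nul D Y l x
      · by_cases hz0 : ∃ z0, z0 + z ∈ Y ∧ D.q x z0 = e
        · obtain ⟨z0, h1, h2⟩ := hz0
          obtain ⟨-, -, h3⟩ := hke x hx z z0 nx hxz h1 h2
          rw [I_eq nx h1 h2, h3, ← mul_assoc]
          change 0 ≤ σ * σ * _
          rw [hσ, one_mul]
          exact (yc_pos x).le
        · push Not at hz0
          rw [I_none hz0, mul_zero]
      · rw [I_not nx, mul_zero]
    · rw [ind_false hxz, zero_mul, mul_zero]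
  have hJ0 : ∀ z ∈ Y, J z = 0 := by
    intro z hz
    obtain ⟨h, hh, hhY⟩ := hHY
    change ∑ a, ind (a ∈ Y) * I D Y l e a z = 0
    have e0 : ∀ a, I D Y l e a z = I D Y l e a 0 := fun a => I_congr (by rw [add_zero]; exact hz)
    simp only [e0]
    rw [← ident X hhY (C.zero h)]
    refine Finset.sum_eq_zero fun x _ => ?_
    by_cases hxh : x + h ∈ Y
    · have hx : x ∉ Y := fun h' => hhY (mem_add hxh h')
      have hkx : k x = 0 := by
        have := X.ky _ hxh
        rw [map_add, hh, add_zero] at this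
        exact this
      by_cases nx : Nul D Y l x
      · rw [I_none, mul_zero]
        intro z0 hz0 hq
        rw [add_zero] at hz0
        obtain ⟨h1, -, -⟩ := key2 x hx nx z0 hz0 hq
        rw [hkx] at h1
        exact absurd h1 (by decide)
      · rw [I_not nx, mul_zero]
    · rw [ind_false hxh, zero_mul]
  have hJb : 0 < σ * J b := by
    change 0 < σ * ∑ a, ind (a ∈ Y) * I D Y l e a b
    rw [← ident X hbY (C.self X.he b), Finset.mul_sum]
    refine Finset.sum_pos' (fun x _ => ?_) ⟨b, Finset.mem_univ _, ?_⟩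
    · by_cases hxz : x + b ∈ Y
      · rw [ind_true hxz, one_mul]
        have hx : x ∉ Y := fun h => hbY (mem_add hxz h)
        by_cases nx : Nul D Y l x
        · by_cases hz0 : ∃ z0, z0 + b ∈ Y ∧ D.q x z0 = e
          · obtain ⟨z0, h1, h2⟩ := hz0
            obtain ⟨-, -, h3⟩ := hke x hx b z0 nx hxz h1 h2
            rw [I_eq nx h1 h2, h3, ← mul_assoc]
            change 0 ≤ σ * σ * _
            rw [hσ, one_mul]
            exact (yc_pos x).le
          · push Not at hz0
            rw [I_none hz0, mul_zero]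
        · rw [I_not nx, mul_zero]
      · rw [ind_false hxz, zero_mul, mul_zero]
    · rw [ind_true (by rw [aa]; exact Y.zero_mem), one_mul]
      have h1 : b + k1 + b ∈ Y := by
        have e1 : b + k1 + b = k1 + (b + b) := by abel
        rw [e1, aa, add_zero]
        exact hk1
      rw [I_eq nb h1 hbk, ← mul_assoc, map_add, add_comm (l b)]
      change 0 < σ * σ * _
      rw [hσ, one_mul]
      exact yc_pos b
  -- the total is zero
  have hsum : ∑ z, J z = 0 := by
    have h1 : ∀ a ∈ Y, ∑ z', ind (D.q a z' = e) * sg (l z') = 0 := by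
      intro a ha
      obtain ⟨v, hav, hlv⟩ := hcon a ha
      have hlv1 := zz _ hlv
      have h2 : ∑ z', ind (D.q a z' = e) * sg (l z') =
          - ∑ z', ind (D.q a z' = e) * sg (l z') := by
        conv_lhs => rw [← Equiv.sum_comp (Equiv.addRight v)]
        rw [← Finset.sum_neg_distrib]
        refine Finset.sum_congr rfl fun z' _ => ?_
        rw [Equiv.coe_addRight, map_add, hlv1, sg_add, sg_one]
        have e1 : D.q a (z' + v) = D.q a z' := by
          apply q_eq
          exact hav.of_eq rfl (by rw [add_comm z' v, add_assoc, aa, add_zero])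
        rw [e1]
        ring
      linarith
    have h2 : ∑ z, J z = ∑ a, ind (a ∈ Y) * ∑ z', (ind (D.q a z' = e) * sg (l z')) *
        ∑ z, ind (z' + z ∈ Y) := by
      change ∑ z, ∑ a, ind (a ∈ Y) * ∑ z', ind (z' + z ∈ Y ∧ D.q a z' = e) * sg (l z') = _
      rw [Finset.sum_comm]
      refine Finset.sum_congr rfl fun a _ => ?_
      rw [← Finset.mul_sum, Finset.sum_comm]
      congr 1
      refine Finset.sum_congr rfl fun z' _ => ?_
      rw [Finset.mul_sum]
      refine Finset.sum_congr rfl fun z _ => ?_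
      rw [ind_and]
      ring
    have h3 : ∀ z' : V, ∑ z, ind (z' + z ∈ Y) = ∑ z, ind (z ∈ Y) := by
      intro z'
      rw [← Equiv.sum_comp (Equiv.addLeft z')]
      refine Finset.sum_congr rfl fun z _ => ?_
      rw [Equiv.coe_addLeft, ← add_assoc, aa, zero_add]
    rw [h2]
    refine Finset.sum_eq_zero fun a _ => ?_
    by_cases ha : a ∈ Y
    · simp only [h3]
      rw [← Finset.sum_mul, h1 a ha, zero_mul, mul_zero]
    · rw [ind_false ha, zero_mul]
  have hpos : 0 < ∑ z, σ * J z := by
    refine Finset.sum_pos' (fun z _ => ?_) ⟨b, Finset.mem_univ _, hJb⟩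
    by_cases hz : z ∈ Y
    · rw [hJ0 z hz, mul_zero]
    · exact hJ z hz
  rw [← Finset.mul_sum, hsum, mul_zero] at hpos
  exact lt_irrefl _ hpos

end Pool.Agent.NA53
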